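import Mathlib

set_option autoImplicit false

/-!
# A factorisation of logarithmic size of the slack matrix of a parabolic chain

`IsFact n L`: there are nonnegative vectors `a 0, …, a (n-1)` of length `L` such that all the
functions `i ↦ (i - j) (i - j - 1)` (`-1 ≤ j < n`), `i ↦ i`, `i ↦ n - 1 - i` on `{0, …, n-1}` are
nonnegative combinations (with explicit bounds) of the coordinates of `a i`. By folding the interval
in the middle we prove `IsFact n (2 * ⌈log₂ n⌉)`.
-/

namespace Pool.Agent.Lib.MP_902647_gt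

/-- See the file header. -/
def IsFact (n L : ℕ) : Prop :=
  ∃ a : ℕ → Fin L → ℝ,
    (∀ i < n, ∀ l, 0 ≤ a i l ∧ a i l ≤ n) ∧
    (∀ j : ℤ, -1 ≤ j → j < n → ∃ v : Fin L → ℝ, (∀ l, 0 ≤ v l ∧ v l ≤ n) ∧
      ∀ i < n, ((i : ℝ) - j) * ((i : ℝ) - j - 1) = ∑ l, v l * a i l) ∧
    (∃ u : Fin L → ℝ, (∀ l, 0 ≤ u l ∧ u l ≤ 1) ∧ ∀ i < n, (i : ℝ) = ∑ l, u l * a i l) ∧
    (∃ u : Fin L → ℝ, (∀ l, 0 ≤ u l ∧ u l ≤ 1) ∧ ∀ i < n, ((n : ℝ) - 1 - i) = ∑ l, u l * a i l)

theorem isFact_one : IsFact 1 0 := by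
  refine ⟨fun _ _ => 0, ?_, ?_, ?_, ?_⟩
  · intro i _ l
    exact l.elim0
  · intro j h1 h2
    refine ⟨fun _ => 0, fun l => l.elim0, ?_⟩
    intro i hi
    have hi0 : i = 0 := by omega
    subst hi0
    have hj : j = -1 ∨ j = 0 := by omega
    rcases hj with rfl | rfl <;> simp
  · refine ⟨fun _ => 0, fun l => l.elim0, ?_⟩
    intro i hi
    have hi0 : i = 0 := by omega
    subst hi0
    simp
  · refine ⟨fun _ => 0, fun l => l.elim0, ?_⟩
    intro i hi
    have hi0 : i = 0 := by omega
    subst hi0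
    simp

/-- The folded index. -/
def fold (n i : ℕ) : ℕ := min i (n - 1 - i)

theorem fold_cases (n i : ℕ) (hi : i < n) :
    ((fold n i : ℝ) = i ∧ 0 ≤ (n : ℝ) - 1 - 2 * i) ∨
      ((fold n i : ℝ) = n - 1 - i ∧ (n : ℝ) - 1 - 2 * i ≤ 0) := by
  unfold fold
  rcases le_total i (n - 1 - i) with h | h
  · left
    rw [min_eq_left h]
    refine ⟨rfl, ?_⟩
    have h2 : 2 * i + 1 ≤ n := by omega
    have h3 : (2 * (i : ℝ) + 1) ≤ n := by exact_mod_cast h2
    linarith
  · right
    rw [min_eq_right h]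
    have h4 : (n - 1 - i) + (1 + i) = n := by omega
    have h5 : ((n - 1 - i : ℕ) : ℝ) + (1 + i) = n := by exact_mod_cast h4
    refine ⟨by linarith, ?_⟩
    have h2 : n ≤ 2 * i + 1 := by omega
    have h3 : (n : ℝ) ≤ 2 * (i : ℝ) + 1 := by exact_mod_cast h2
    linarith

theorem isFact_step (h n L : ℕ) (hn : 2 ≤ n) (hh : h = (n + 1) / 2) (H : IsFact h L) :
    IsFact n (L + 2) := by
  obtain ⟨a, ha, hv, ⟨u, hu, hu2⟩, _⟩ := H
  have hhn : (h : ℝ) ≤ n := by
    have : h ≤ n := by omega
    exact_mod_cast this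
  have hn0 : (2 : ℝ) ≤ n := by exact_mod_cast hn
  have hfold : ∀ i < n, fold n i < h := by
    intro i hi
    unfold fold
    omega
  set x : ℕ → ℝ := fun i => (n : ℝ) - 1 - 2 * i with hx
  refine ⟨fun i => Fin.cons (max (x i) 0) (Fin.cons (max (-x i) 0) (a (fold n i))), ?_, ?_, ?_, ?_⟩
  · intro i hi l
    have hi' : (i : ℝ) + 1 ≤ n := by exact_mod_cast hi
    have hi0 : (0 : ℝ) ≤ i := Nat.cast_nonneg i
    refine Fin.cases ?_ (fun l => ?_) l
    · simp only [Fin.cons_zero]
      exact ⟨le_max_right _ _, max_le (by simp only [hx]; linarith) (by linarith)⟩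
    · refine Fin.cases ?_ (fun l => ?_) l
      · simp only [Fin.cons_succ, Fin.cons_zero]
        exact ⟨le_max_right _ _, max_le (by simp only [hx]; linarith) (by linarith)⟩
      · simp only [Fin.cons_succ]
        have h1 := ha (fold n i) (hfold i hi) l
        exact ⟨h1.1, h1.2.trans hhn⟩
  · intro j hj1 hj2
    set y : ℝ := (n : ℝ) - 2 - 2 * j with hy
    have hj1' : (-1 : ℝ) ≤ j := by exact_mod_cast hj1
    have hj2' : (j : ℝ) + 1 ≤ n := by
      have : j + 1 ≤ n := by omega
      exact_mod_cast this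
    -- the folded edge index
    obtain ⟨j', h1, h2, h3⟩ : ∃ j' : ℤ, -1 ≤ j' ∧ j' < h ∧
        (((j' : ℝ) = j ∧ 0 ≤ y) ∨ ((j' : ℝ) = n - 2 - j ∧ y ≤ 0)) := by
      rcases le_total j ((n : ℤ) - 2 - j) with hc | hc
      · refine ⟨j, hj1, by omega, Or.inl ⟨rfl, ?_⟩⟩
        have h4 : (j : ℝ) ≤ (n : ℝ) - 2 - j := by exact_mod_cast hc
        linarith
      · refine ⟨(n : ℤ) - 2 - j, by omega, by omega, Or.inr ⟨by push_cast; ring, ?_⟩⟩
        have h4 : (n : ℝ) - 2 - j ≤ (j : ℝ) := by exact_mod_cast hc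
        linarith
    obtain ⟨v, hv1, hv2⟩ := hv j' h1 h2
    refine ⟨Fin.cons (max (-y) 0) (Fin.cons (max y 0) v), ?_, ?_⟩
    · intro l
      refine Fin.cases ?_ (fun l => ?_) l
      · simp only [Fin.cons_zero]
        exact ⟨le_max_right _ _, max_le (by linarith) (by linarith)⟩
      · refine Fin.cases ?_ (fun l => ?_) l
        · simp only [Fin.cons_succ, Fin.cons_zero]
          exact ⟨le_max_right _ _, max_le (by linarith) (by linarith)⟩
        · simp only [Fin.cons_succ]
          exact ⟨(hv1 l).1, (hv1 l).2.trans hhn⟩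
    · intro i hi
      rw [Fin.sum_univ_succ, Fin.sum_univ_succ]
      simp only [Fin.cons_zero, Fin.cons_succ]
      rw [← hv2 (fold n i) (hfold i hi)]
      rcases fold_cases n i hi with ⟨e1, e2⟩ | ⟨e1, e2⟩ <;> rcases h3 with ⟨f1, f2⟩ | ⟨f1, f2⟩
      · rw [e1, f1, max_eq_right (by linarith : -y ≤ 0),
          max_eq_right (by simp only [hx]; linarith : -x i ≤ 0)]
        ring
      · rw [e1, f1, max_eq_left (by linarith : 0 ≤ -y), max_eq_right (by linarith : y ≤ 0),
          max_eq_left (by simp only [hx]; linarith : 0 ≤ x i)]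
        simp only [hx, hy]
        ring
      · rw [e1, f1, max_eq_right (by linarith : -y ≤ 0), max_eq_left (by linarith : 0 ≤ y),
          max_eq_left (by simp only [hx]; linarith : 0 ≤ -x i)]
        simp only [hx, hy]
        ring
      · rw [e1, f1, max_eq_right (by linarith : y ≤ 0),
          max_eq_right (by simp only [hx]; linarith : x i ≤ 0)]
        ring
  · refine ⟨Fin.cons 0 (Fin.cons 1 u), ?_, ?_⟩
    · intro l
      refine Fin.cases ?_ (fun l => ?_) l
      · simp
      · refine Fin.cases ?_ (fun l => ?_) l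
        · simp
        · simpa using hu l
    · intro i hi
      rw [Fin.sum_univ_succ, Fin.sum_univ_succ]
      simp only [Fin.cons_zero, Fin.cons_succ]
      rw [← hu2 (fold n i) (hfold i hi)]
      rcases fold_cases n i hi with ⟨e1, e2⟩ | ⟨e1, e2⟩
      · rw [e1, max_eq_right (by simp only [hx]; linarith : -x i ≤ 0)]
        ring
      · rw [e1, max_eq_left (by simp only [hx]; linarith : 0 ≤ -x i)]
        simp only [hx]
        ring
  · refine ⟨Fin.cons 1 (Fin.cons 0 u), ?_, ?_⟩
    · intro l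
      refine Fin.cases ?_ (fun l => ?_) l
      · simp
      · refine Fin.cases ?_ (fun l => ?_) l
        · simp
        · simpa using hu l
    · intro i hi
      rw [Fin.sum_univ_succ, Fin.sum_univ_succ]
      simp only [Fin.cons_zero, Fin.cons_succ]
      rw [← hu2 (fold n i) (hfold i hi)]
      rcases fold_cases n i hi with ⟨e1, e2⟩ | ⟨e1, e2⟩
      · rw [e1, max_eq_left (by simp only [hx]; linarith : 0 ≤ x i)]
        simp only [hx]
        ring
      · rw [e1, max_eq_right (by simp only [hx]; linarith : x i ≤ 0)]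
        ring

/-- The factorisation of logarithmic size. -/
theorem isFact_clog (n : ℕ) (hn : 1 ≤ n) : IsFact n (2 * Nat.clog 2 n) := by
  induction n using Nat.strong_induction_on with
  | _ n ih =>
    rcases Nat.lt_or_ge n 2 with h | h
    · have h1 : n = 1 := by omega
      subst h1
      simpa using isFact_one
    · have h1 := ih ((n + 1) / 2) (by omega) (by omega)
      have h2 := isFact_step _ n _ h rfl h1
      have h3 : Nat.clog 2 n = Nat.clog 2 ((n + 1) / 2) + 1 := by
        rw [Nat.clog_of_two_le (by norm_num) h]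
        rfl
      rw [h3, Nat.mul_add]
      exact h2

end Pool.Agent.Lib.MP_902647_gt
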