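import Mathlib
import Pool.Agent.Lib.MP_902647_gt.LogFact

set_option autoImplicit false

/-!
# Lifting the values of an effect on the parabolic chain
-/

namespace Pool.Agent.Lib.MP_902647_gt

/-- The case of a nonnegative leading coefficient `s`. -/
theorem exists_alpha (n L : ℕ) (hn : 2 ≤ n) (a : ℕ → Fin L → ℝ)
    (hv : ∀ j : ℤ, -1 ≤ j → j < n → ∃ v : Fin L → ℝ, (∀ l, 0 ≤ v l ∧ v l ≤ n) ∧
      ∀ i < n, ((i : ℝ) - j) * ((i : ℝ) - j - 1) = ∑ l, v l * a i l)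
    (hu : ∃ u : Fin L → ℝ, (∀ l, 0 ≤ u l ∧ u l ≤ 1) ∧ ∀ i < n, (i : ℝ) = ∑ l, u l * a i l)
    (hu' : ∃ u : Fin L → ℝ, (∀ l, 0 ≤ u l ∧ u l ≤ 1) ∧
      ∀ i < n, ((n : ℝ) - 1 - i) = ∑ l, u l * a i l)
    (S R H : ℝ) (hS : 1 ≤ S) (hR : S ≤ R) (hH : n * S ≤ H - R) (b p s o1 o2 : ℝ) (hs : 0 ≤ s)
    (h1 : b - p * R + s * H = o1) (h2 : b + p * R + s * H = o2)
    (hb : ∀ i < n, 0 ≤ b + p * (i : ℕ) + s * (i : ℝ) ^ 2 ∧ b + p * (i : ℕ) + s * (i : ℝ) ^ 2 ≤ 1)
    (ho1 : o1 ≤ 1) (ho2 : o2 ≤ 1) :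
    ∃ (α : ℝ) (V : Fin L → ℝ), 0 ≤ α ∧ α ≤ 1 ∧ (∀ l, 0 ≤ V l ∧ α + V l ≤ 1) ∧
      ∀ i < n, b + p * (i : ℕ) + s * (i : ℝ) ^ 2 = α + (∑ l, V l * a i l) / S := by
  have hS0 : (0 : ℝ) < S := by linarith
  have hR0 : (0 : ℝ) < R := by linarith
  have hn2 : (2 : ℝ) ≤ n := by exact_mod_cast hn
  obtain ⟨i0, hi0, hmin⟩ := Finset.exists_min_image (Finset.range n)
    (fun i : ℕ => b + p * (i : ℕ) + s * (i : ℝ) ^ 2) ⟨0, Finset.mem_range.2 (by omega)⟩
  rw [Finset.mem_range] at hi0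
  have hmin' : ∀ i < n, b + p * (i0 : ℕ) + s * (i0 : ℝ) ^ 2 ≤ b + p * (i : ℕ) + s * (i : ℝ) ^ 2 :=
    fun i hi => hmin i (Finset.mem_range.2 hi)
  set α : ℝ := b + p * (i0 : ℕ) + s * (i0 : ℝ) ^ 2 with hα
  obtain ⟨hα0, hα1⟩ := hb i0 hi0
  -- generic assembly
  have main : ∀ (w1 w2 : Fin L → ℝ) (c1 c2 : ℝ), 0 ≤ c1 → 0 ≤ c2 → (∀ l, 0 ≤ w1 l) →
      (∀ l, 0 ≤ w2 l) → (∀ l, S * (c1 * w1 l + c2 * w2 l) ≤ 1 - α) →
      (∀ i < n, b + p * (i : ℕ) + s * (i : ℝ) ^ 2 - α =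
        c1 * (∑ l, w1 l * a i l) + c2 * (∑ l, w2 l * a i l)) →
      ∃ (α : ℝ) (V : Fin L → ℝ), 0 ≤ α ∧ α ≤ 1 ∧ (∀ l, 0 ≤ V l ∧ α + V l ≤ 1) ∧
        ∀ i < n, b + p * (i : ℕ) + s * (i : ℝ) ^ 2 = α + (∑ l, V l * a i l) / S := by
    intro w1 w2 c1 c2 hc1 hc2 hw1 hw2 hle heq
    refine ⟨α, fun l => S * (c1 * w1 l + c2 * w2 l), hα0, hα1, ?_, ?_⟩
    · intro l
      refine ⟨mul_nonneg hS0.le (add_nonneg (mul_nonneg hc1 (hw1 l)) (mul_nonneg hc2 (hw2 l))), ?_⟩
      have := hle l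
      linarith
    · intro i hi
      have h3 : (∑ l, S * (c1 * w1 l + c2 * w2 l) * a i l) =
          S * (c1 * (∑ l, w1 l * a i l) + c2 * (∑ l, w2 l * a i l)) := by
        rw [Finset.mul_sum, Finset.mul_sum, ← Finset.sum_add_distrib, Finset.mul_sum]
        refine Finset.sum_congr rfl fun l _ => ?_
        ring
      have h4 := heq i hi
      rw [h3, ← h4, mul_div_cancel_left₀ _ hS0.ne']
      ring
  rcases Nat.eq_zero_or_pos i0 with hz | hz
  · -- the minimum is at the left end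
    obtain ⟨v, hv1, hv2⟩ := hv 0 (by norm_num) (by exact_mod_cast (by omega : 0 < n))
    obtain ⟨u, hu1, hu2⟩ := hu
    have hαb : α = b := by rw [hα, hz]; simp
    have hsp : 0 ≤ s + p := by
      have h3 := hmin' 1 (by omega)
      rw [hαb] at h3
      push_cast at h3
      linarith
    refine main v u s (s + p) hs hsp (fun l => (hv1 l).1) (fun l => (hu1 l).1) ?_ ?_
    · intro l
      have e1 : s * v l ≤ s * n := mul_le_mul_of_nonneg_left (hv1 l).2 hs
      have e2 : (s + p) * u l ≤ (s + p) * 1 := mul_le_mul_of_nonneg_left (hu1 l).2 hsp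
      have e3 : S * (s * v l + (s + p) * u l) ≤ S * (s * n + (s + p)) :=
        mul_le_mul_of_nonneg_left (by linarith) hS0.le
      have e4 : s * (n * S) ≤ s * (H - R) := mul_le_mul_of_nonneg_left hH hs
      have e5 : (s + p) * S ≤ (s + p) * R := mul_le_mul_of_nonneg_left hR hsp
      rw [hαb]
      nlinarith
    · intro i hi
      rw [hαb, ← hv2 i hi, ← hu2 i hi]
      push_cast
      ring
  · rcases Nat.lt_or_ge (i0 + 1) n with hlt | hge
    · -- the minimum is in the interior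
      obtain ⟨v, hv1, hv2⟩ := hv ((i0 : ℤ) - 1) (by omega) (by omega)
      obtain ⟨v', hv1', hv2'⟩ := hv (i0 : ℤ) (by omega) (by omega)
      have hi1 : (1 : ℝ) ≤ i0 := by exact_mod_cast hz
      set t : ℝ := p + 2 * s * i0 with ht
      have hst : 0 ≤ s + t := by
        have h3 := hmin' (i0 + 1) hlt
        push_cast at h3
        rw [ht]
        nlinarith
      have hst' : 0 ≤ s - t := by
        have h3 := hmin' (i0 - 1) (by omega)
        have h4 : ((i0 - 1 : ℕ) : ℝ) = (i0 : ℝ) - 1 := by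
          rw [Nat.cast_sub hz]; simp
        rw [h4] at h3
        rw [ht]
        nlinarith
      refine main v v' ((s + t) / 2) ((s - t) / 2) (by linarith) (by linarith)
        (fun l => (hv1 l).1) (fun l => (hv1' l).1) ?_ ?_
      · intro l
        have e1 : (s + t) / 2 * v l ≤ (s + t) / 2 * n :=
          mul_le_mul_of_nonneg_left (hv1 l).2 (by linarith)
        have e2 : (s - t) / 2 * v' l ≤ (s - t) / 2 * n :=
          mul_le_mul_of_nonneg_left (hv1' l).2 (by linarith)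
        have e3 : S * ((s + t) / 2 * v l + (s - t) / 2 * v' l) ≤ S * (s * n) :=
          mul_le_mul_of_nonneg_left (by linarith) hS0.le
        have e4 : s * (n * S) ≤ s * (H - R) := mul_le_mul_of_nonneg_left hH hs
        -- 1 - α ≥ o1 - α = -t (R + i0) + s (H + 2 i0 R + i0 ^ 2)
        have e5 : o1 - α = -t * (R + i0) + s * (H + 2 * i0 * R + (i0 : ℝ) ^ 2) := by
          rw [← h1, hα, ht]
          ring
        have e6 : t * (R + i0) ≤ s * (R + i0) :=
          mul_le_mul_of_nonneg_right (by linarith) (by linarith)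
        have e7 : 0 ≤ s * (2 * i0 * R + (i0 : ℝ) ^ 2 - i0) := by
          refine mul_nonneg hs ?_
          nlinarith
        nlinarith
      · intro i hi
        rw [← hv2 i hi, ← hv2' i hi, hα, ht]
        push_cast
        ring
    · -- the minimum is at the right end
      have hi0n : i0 + 1 = n := by omega
      have hq : (i0 : ℝ) = (n : ℝ) - 1 := by
        have : ((i0 + 1 : ℕ) : ℝ) = n := by exact_mod_cast hi0n
        push_cast at this
        linarith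
      obtain ⟨v, hv1, hv2⟩ := hv ((i0 : ℤ) - 1) (by omega) (by omega)
      obtain ⟨u, hu1, hu2⟩ := hu'
      have hi1 : (1 : ℝ) ≤ i0 := by exact_mod_cast hz
      set t : ℝ := p + 2 * s * i0 with ht
      have hst' : 0 ≤ s - t := by
        have h3 := hmin' (i0 - 1) (by omega)
        have h4 : ((i0 - 1 : ℕ) : ℝ) = (i0 : ℝ) - 1 := by
          rw [Nat.cast_sub hz]; simp
        rw [h4] at h3
        rw [ht]
        nlinarith
      refine main v u s (s - t) hs hst' (fun l => (hv1 l).1) (fun l => (hu1 l).1) ?_ ?_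
      · intro l
        have e1 : s * v l ≤ s * n := mul_le_mul_of_nonneg_left (hv1 l).2 hs
        have e2 : (s - t) * u l ≤ (s - t) * 1 := mul_le_mul_of_nonneg_left (hu1 l).2 hst'
        have e3 : S * (s * v l + (s - t) * u l) ≤ S * (s * n + (s - t)) :=
          mul_le_mul_of_nonneg_left (by linarith) hS0.le
        have e4 : s * (n * S) ≤ s * (H - R) := mul_le_mul_of_nonneg_left hH hs
        have e5 : (s - t) * S ≤ (s - t) * R := mul_le_mul_of_nonneg_left hR hst'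
        have e6 : o1 - α = (s - t) * (R + i0) + s * (H - R + (2 * i0 * R + (i0 : ℝ) ^ 2 - i0)) := by
          rw [← h1, hα, ht]
          ring
        have e7 : 0 ≤ s * (2 * i0 * R + (i0 : ℝ) ^ 2 - i0) := by
          refine mul_nonneg hs ?_
          nlinarith
        have e8 : 0 ≤ (s - t) * i0 := mul_nonneg hst' (by linarith)
        nlinarith
      · intro i hi
        rw [← hv2 i hi, ← hu2 i hi, hα, ht, ← hq]
        push_cast
        ring

/-- The values on the chain and at the two far vertices of a function with values in `[0,1]`. -/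
theorem exists_W (n L : ℕ) (hn : 2 ≤ n) (a : ℕ → Fin L → ℝ)
    (hv : ∀ j : ℤ, -1 ≤ j → j < n → ∃ v : Fin L → ℝ, (∀ l, 0 ≤ v l ∧ v l ≤ n) ∧
      ∀ i < n, ((i : ℝ) - j) * ((i : ℝ) - j - 1) = ∑ l, v l * a i l)
    (hu : ∃ u : Fin L → ℝ, (∀ l, 0 ≤ u l ∧ u l ≤ 1) ∧ ∀ i < n, (i : ℝ) = ∑ l, u l * a i l)
    (hu' : ∃ u : Fin L → ℝ, (∀ l, 0 ≤ u l ∧ u l ≤ 1) ∧
      ∀ i < n, ((n : ℝ) - 1 - i) = ∑ l, u l * a i l)
    (S R H : ℝ) (hS : 1 ≤ S) (hR : S ≤ R) (hH : n * S ≤ H - R) (b p s o1 o2 : ℝ)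
    (h1 : b - p * R + s * H = o1) (h2 : b + p * R + s * H = o2)
    (hb : ∀ i < n, 0 ≤ b + p * (i : ℕ) + s * (i : ℝ) ^ 2 ∧ b + p * (i : ℕ) + s * (i : ℝ) ^ 2 ≤ 1)
    (ho1 : 0 ≤ o1 ∧ o1 ≤ 1) (ho2 : 0 ≤ o2 ∧ o2 ≤ 1) :
    ∃ (α : ℝ) (W : Fin L → ℝ), 0 ≤ α ∧ α ≤ 1 ∧ (∀ l, 0 ≤ W l ∧ W l ≤ 1) ∧
      ∀ i < n, b + p * (i : ℕ) + s * (i : ℝ) ^ 2 =
        (1 - (∑ l, a i l) / S) * α + ∑ l, (a i l / S) * W l := by
  have key : ∀ (α : ℝ) (V : Fin L → ℝ) (i : ℕ),
      (1 - (∑ l, a i l) / S) * α + ∑ l, (a i l / S) * (α + V l) =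
        α + (∑ l, V l * a i l) / S := by
    intro α V i
    have e1 : ∑ l, (a i l / S) * (α + V l) = (∑ l, a i l) / S * α + (∑ l, V l * a i l) / S := by
      rw [Finset.sum_div, Finset.sum_mul, Finset.sum_div, ← Finset.sum_add_distrib]
      refine Finset.sum_congr rfl fun l _ => ?_
      ring
    rw [e1]
    ring
  rcases le_total 0 s with hs | hs
  · obtain ⟨α, V, hα0, hα1, hV, hVe⟩ := exists_alpha n L hn a hv hu hu' S R H hS hR hH b p s o1 o2
      hs h1 h2 hb ho1.2 ho2.2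
    refine ⟨α, fun l => α + V l, hα0, hα1, fun l => ⟨by linarith [(hV l).1], (hV l).2⟩, ?_⟩
    intro i hi
    rw [hVe i hi, key]
  · obtain ⟨α, V, hα0, hα1, hV, hVe⟩ := exists_alpha n L hn a hv hu hu' S R H hS hR hH (1 - b)
      (-p) (-s) (1 - o1) (1 - o2) (by linarith) (by rw [← h1]; ring) (by rw [← h2]; ring)
      (fun i hi => by
        have h3 := hb i hi
        constructor <;> linarith) (by linarith [ho1.1]) (by linarith [ho2.1])
    refine ⟨1 - α, fun l => (1 - α) + -V l, by linarith, by linarith,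
      fun l => ⟨by linarith [(hV l).2], by linarith [(hV l).1]⟩, ?_⟩
    intro i hi
    rw [key (1 - α) (fun l => -V l) i]
    have h3 := hVe i hi
    have h4 : (∑ l, -V l * a i l) / S = -((∑ l, V l * a i l) / S) := by
      rw [← neg_div, ← Finset.sum_neg_distrib]
      congr 1
      refine Finset.sum_congr rfl fun l _ => ?_
      ring
    rw [h4]
    linarith

end Pool.Agent.Lib.MP_902647_gt
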