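import Mathlib

set_option autoImplicit false

open Set

/-!
# Simplicial refinements: definitions and general lemmas
-/

namespace Pool.Agent.Lib.MP_902647_gt

variable {E F : Type*}

/-- A polytope: a nonempty compact convex set with finitely many extreme points. -/
def IsPolytope [NormedAddCommGroup E] [NormedSpace ℝ E] (C : Set E) : Prop :=
  C.Nonempty ∧ IsCompact C ∧ Convex ℝ C ∧ (C.extremePoints ℝ).Finite

/-- A simplex: the convex hull of a nonempty finite affinely independent family of points. -/
def IsSimplex [AddCommGroup E] [Module ℝ E] (T : Set E) : Prop :=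
  ∃ (k : ℕ) (p : Fin (k + 1) → E), AffineIndependent ℝ p ∧ T = convexHull ℝ (range p)

/-- The convex-form space `Ω C`: the set of all affine maps `C → [0, 1]`, as a subset of the real
vector space of all functions `C → ℝ`. -/
def Omega [AddCommGroup E] [Module ℝ E] (C : Set E) : Set (C → ℝ) :=
  {w | (∀ x, 0 ≤ w x ∧ w x ≤ 1) ∧
    ∀ (a b c : C) (l : ℝ), 0 ≤ l → l ≤ 1 → (c : E) = l • (a : E) + (1 - l) • (b : E) →
      w c = l * w a + (1 - l) * w b}

/-- `IsPartialOntoAffine X Y D f`: the map `f`, restricted to `D`, is a partial, onto, affine map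
from `X` to `Y` with domain `D`. -/
structure IsPartialOntoAffine [AddCommGroup E] [Module ℝ E] [AddCommGroup F] [Module ℝ F]
    (X : Set E) (Y : Set F) (D : Set E) (f : E → F) : Prop where
  subset : D ⊆ X
  convex : Convex ℝ D
  onto : f '' D = Y
  affine : ∀ a ∈ D, ∀ b ∈ D, ∀ l : ℝ, 0 ≤ l → l ≤ 1 →
    f (l • a + (1 - l) • b) = l • f a + (1 - l) • f b

/-- `IsSimplicialRefinement C T Df f Dg g`: `(T, Ω T, f, g)` is a simplicial refinement of the
statistical model `(C, Ω C)`; here `f` has domain `Df` and `g` has domain `Dg`. -/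
structure IsSimplicialRefinement [AddCommGroup E] [Module ℝ E] [AddCommGroup F] [Module ℝ F]
    (C : Set E) (T : Set F) (Df : Set F) (f : F → E) (Dg : Set (T → ℝ))
    (g : (T → ℝ) → (C → ℝ)) : Prop where
  simplex : IsSimplex T
  f_partial : IsPartialOntoAffine T C Df f
  g_partial : IsPartialOntoAffine (Omega T) (Omega C) Dg g
  pairing : ∀ (a : T) (c : C), (a : F) ∈ Df → f a = c → ∀ w ∈ Dg, g w c = w a

/-! ### Extreme points -/

/-- A point of `V` at which a linear form is strictly larger than at all other points of `V` is an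
extreme point of the convex hull of `V`. -/
theorem mem_extremePoints_of_linear [AddCommGroup E] [Module ℝ E] (V : Set E) (v : E) (hv : v ∈ V)
    (l : E →ₗ[ℝ] ℝ) (hl : ∀ w ∈ V, w ≠ v → l w < l v) :
    v ∈ (convexHull ℝ V).extremePoints ℝ := by
  have hS : Convex ℝ {x : E | l x < l v ∨ x = v} := by
    intro x hx y hy a b ha hb hab
    rcases hx with hx | hx <;> rcases hy with hy | hy
    · left
      rcases eq_or_lt_of_le ha with ha0 | ha0
      · have hb1 : b = 1 := by linarith
        subst hb1
        rw [← ha0]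
        simpa using hy
      · have h1 : a * l x < a * l v := mul_lt_mul_of_pos_left hx ha0
        have h2 : b * l y ≤ b * l v := mul_le_mul_of_nonneg_left hy.le hb
        have h3 : l (a • x + b • y) = a * l x + b * l y := by simp
        rw [h3]
        have h4 : l v = a * l v + b * l v := by rw [← add_mul, hab, one_mul]
        linarith
    · rcases eq_or_lt_of_le ha with ha0 | ha0
      · right
        have hb1 : b = 1 := by linarith
        subst hb1
        rw [← ha0, hy]
        simp
      · left
        have h1 : a * l x < a * l v := mul_lt_mul_of_pos_left hx ha0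
        have h3 : l (a • x + b • y) = a * l x + b * l y := by simp
        rw [h3, hy]
        have h4 : l v = a * l v + b * l v := by rw [← add_mul, hab, one_mul]
        linarith
    · rcases eq_or_lt_of_le hb with hb0 | hb0
      · right
        have ha1 : a = 1 := by linarith
        subst ha1
        rw [← hb0, hx]
        simp
      · left
        have h1 : b * l y < b * l v := mul_lt_mul_of_pos_left hy hb0
        have h3 : l (a • x + b • y) = a * l x + b * l y := by simp
        rw [h3, hx]
        have h4 : l v = a * l v + b * l v := by rw [← add_mul, hab, one_mul]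
        linarith
    · right
      rw [hx, hy, ← add_smul, hab, one_smul]
  have hsub : convexHull ℝ V ⊆ {x : E | l x < l v ∨ x = v} := by
    refine convexHull_min ?_ hS
    intro w hw
    by_cases h : w = v
    · exact Or.inr h
    · exact Or.inl (hl w hw h)
  rw [mem_extremePoints]
  refine ⟨subset_convexHull ℝ V hv, ?_⟩
  intro x hx y hy hxy
  obtain ⟨a, b, ha, hb, hab, hxy⟩ := hxy
  have h3 : l v = a * l x + b * l y := by rw [← hxy]; simp
  have h4 : l v = a * l v + b * l v := by rw [← add_mul, hab, one_mul]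
  rcases hsub hx with h1 | h1
  · exfalso
    have h5 : a * l x < a * l v := mul_lt_mul_of_pos_left h1 ha
    rcases hsub hy with h2 | h2
    · have h6 : b * l y < b * l v := mul_lt_mul_of_pos_left h2 hb
      linarith
    · rw [h2] at h3
      linarith
  · rcases hsub hy with h2 | h2
    · exfalso
      have h6 : b * l y < b * l v := mul_lt_mul_of_pos_left h2 hb
      rw [h1] at h3
      linarith
    · exact ⟨h1, h2⟩

/-- If every point of a finite family is exposed by a linear form, then the family is injective and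
its points are exactly the extreme points of its convex hull. -/
theorem extremePoints_of_forms [AddCommGroup E] [Module ℝ E] {ι : Type*} [Fintype ι] (v : ι → E)
    (l : ι → E →ₗ[ℝ] ℝ) (hl : ∀ i j, i ≠ j → l i (v j) < l i (v i)) :
    (convexHull ℝ (range v)).extremePoints ℝ = range v ∧
      ((convexHull ℝ (range v)).extremePoints ℝ).ncard = Fintype.card ι := by
  have hinj : Function.Injective v := by
    intro i j hij
    by_contra h
    have h1 := hl i j h
    rw [hij] at h1
    exact lt_irrefl _ h1
  have h1 : (convexHull ℝ (range v)).extremePoints ℝ = range v := by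
    apply Subset.antisymm extremePoints_convexHull_subset
    rintro _ ⟨i, rfl⟩
    refine mem_extremePoints_of_linear _ _ ⟨i, rfl⟩ (l i) ?_
    rintro _ ⟨j, rfl⟩ hj
    exact hl i j (fun h => hj (by rw [h]))
  refine ⟨h1, ?_⟩
  rw [h1, ← image_univ, ncard_image_of_injective _ hinj, ncard_univ, Nat.card_eq_fintype_card]

/-! ### The standard simplex -/

theorem stdSimplex_isSimplex (k : ℕ) : IsSimplex (stdSimplex ℝ (Fin (k + 1))) := by
  refine ⟨k, fun i => Pi.single i 1, ?_,
    (convexHull_rangle_single_eq_stdSimplex (R := ℝ) (ι := Fin (k + 1))).symm⟩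
  have h := (Pi.basisFun ℝ (Fin (k + 1))).linearIndependent.affineIndependent
  have h2 : (Pi.basisFun ℝ (Fin (k + 1)) : Fin (k + 1) → (Fin (k + 1) → ℝ)) =
      fun i => Pi.single i 1 := by
    funext i
    simp [Pi.basisFun_apply]
  rw [h2] at h
  exact h

theorem stdSimplex_ncard (N : ℕ) : ((stdSimplex ℝ (Fin N)).extremePoints ℝ).ncard = N := by
  rw [← convexHull_rangle_single_eq_stdSimplex (R := ℝ) (ι := Fin N)]
  have h := (extremePoints_of_forms (fun i : Fin N => (Pi.single i 1 : Fin N → ℝ))
    (fun i => LinearMap.proj i) ?_).2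
  · rw [Fintype.card_fin] at h
    exact h
  · intro i j hij
    simp [hij]

/-! ### Convex combinations of affine functions -/

theorem Omega_comb [AddCommGroup E] [Module ℝ E] (K : Set E) (x y : K → ℝ) (hx : x ∈ Omega K)
    (hy : y ∈ Omega K) (s t : ℝ) (hs : 0 ≤ s) (ht : 0 ≤ t) (hst : s + t = 1) :
    s • x + t • y ∈ Omega K := by
  obtain ⟨x1, x2⟩ := hx
  obtain ⟨y1, y2⟩ := hy
  refine ⟨fun a => ?_, fun a b c l h0 h1 hc => ?_⟩
  · simp only [Pi.add_apply, Pi.smul_apply, smul_eq_mul]
    have h1 := mul_nonneg hs (x1 a).1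
    have h2 := mul_nonneg ht (y1 a).1
    have h3 := mul_le_of_le_one_right hs (x1 a).2
    have h4 := mul_le_of_le_one_right ht (y1 a).2
    constructor <;> linarith
  · simp only [Pi.add_apply, Pi.smul_apply, smul_eq_mul]
    rw [x2 a b c l h0 h1 hc, y2 a b c l h0 h1 hc]
    ring

/-! ### Refinements from lifts of the vertices and of the effects -/

/-- If the vertices `v i` of the polytope `C` lift to points `A i` of the standard simplex under a
linear map `f` and every affine `o : C → [0,1]` lifts to a vector `W` with entries in `[0,1]`, then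
`C` has a simplicial refinement. -/
theorem exists_refinement [AddCommGroup E] [Module ℝ E] {ι : Type*} (v : ι → E)
    (k : ℕ) (A : ι → (Fin (k + 1) → ℝ)) (hA : ∀ i, A i ∈ stdSimplex ℝ (Fin (k + 1)))
    (f : (Fin (k + 1) → ℝ) →ₗ[ℝ] E) (hf : ∀ i, f (A i) = v i)
    (hlift : ∀ o ∈ Omega (convexHull ℝ (range v)), ∃ W : Fin (k + 1) → ℝ,
      (∀ l, 0 ≤ W l ∧ W l ≤ 1) ∧
      ∀ i, o ⟨v i, subset_convexHull ℝ _ ⟨i, rfl⟩⟩ = ∑ l, A i l * W l) :
    ∃ (Df : Set (Fin (k + 1) → ℝ)) (Dg : Set (stdSimplex ℝ (Fin (k + 1)) → ℝ))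
      (g : (stdSimplex ℝ (Fin (k + 1)) → ℝ) → (convexHull ℝ (range v) → ℝ)),
      IsSimplicialRefinement (convexHull ℝ (range v)) (stdSimplex ℝ (Fin (k + 1))) Df f Dg g := by
  classical
  set C : Set E := convexHull ℝ (range v) with hC
  have hCconv : Convex ℝ C := convex_convexHull ℝ _
  set T : Set (Fin (k + 1) → ℝ) := stdSimplex ℝ (Fin (k + 1)) with hT
  set Df : Set (Fin (k + 1) → ℝ) := convexHull ℝ (range A) with hDf
  have hsub : Df ⊆ T := by
    refine convexHull_min ?_ (convex_stdSimplex ℝ _)
    rintro _ ⟨i, rfl⟩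
    exact hA i
  have himg : f '' Df = C := by
    rw [hDf, hC, f.isLinear.image_convexHull]
    congr 1
    ext x
    constructor
    · rintro ⟨_, ⟨i, rfl⟩, rfl⟩
      exact ⟨i, (hf i).symm⟩
    · rintro ⟨i, rfl⟩
      exact ⟨A i, ⟨i, rfl⟩, hf i⟩
  have hlift2 : ∀ o ∈ Omega C, ∃ e ∈ Omega T, ∀ (a : T) (c : C),
      a.1 ∈ Df → f a.1 = c → o c = e a := by
    intro o ho
    obtain ⟨W, hW, hWv⟩ := hlift o ho
    refine ⟨fun a => ∑ l, a.1 l * W l, ⟨?_, ?_⟩, ?_⟩
    · intro a
      have ha : (∀ l, 0 ≤ a.1 l) ∧ ∑ l, a.1 l = 1 := a.2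
      constructor
      · exact Finset.sum_nonneg fun l _ => mul_nonneg (ha.1 l) (hW l).1
      · rw [← ha.2]
        refine Finset.sum_le_sum fun l _ => ?_
        exact mul_le_of_le_one_right (ha.1 l) (hW l).2
    · intro a b c l h0 h1 hc
      have hc' : ∀ r, c.1 r =
          l * a.1 r + (1 - l) * b.1 r := by
        intro r
        have h2 := congrFun hc r
        simpa using h2
      change ∑ r, c.1 r * W r = l * (∑ r, a.1 r * W r) +
        (1 - l) * (∑ r, b.1 r * W r)
      rw [Finset.mul_sum, Finset.mul_sum, ← Finset.sum_add_distrib]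
      refine Finset.sum_congr rfl fun r _ => ?_
      rw [hc' r]
      ring
    · intro a c ha hac
      have hS : Convex ℝ {x : Fin (k + 1) → ℝ | ∃ h : f x ∈ C, o ⟨f x, h⟩ = ∑ l, x l * W l} := by
        rintro x ⟨hx1, hx2⟩ y ⟨hy1, hy2⟩ s t hs ht hst
        have h1 : f (s • x + t • y) = s • f x + t • f y := by simp
        have h2 : f (s • x + t • y) ∈ C := by
          rw [h1]
          exact hCconv hx1 hy1 hs ht hst
        refine ⟨h2, ?_⟩
        have ht' : t = 1 - s := by linarith
        have h3 := ho.2 ⟨f x, hx1⟩ ⟨f y, hy1⟩ ⟨f (s • x + t • y), h2⟩ s hs (by linarith)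
          (by
            change f (s • x + t • y) = s • f x + (1 - s) • f y
            rw [h1, ← ht'])
        rw [h3, hx2, hy2, ← ht']
        simp only [Pi.add_apply, Pi.smul_apply, smul_eq_mul]
        rw [Finset.mul_sum, Finset.mul_sum, ← Finset.sum_add_distrib]
        refine Finset.sum_congr rfl fun k _ => ?_
        ring
      have hsub2 : Df ⊆ {x : Fin (k + 1) → ℝ | ∃ h : f x ∈ C, o ⟨f x, h⟩ = ∑ l, x l * W l} := by
        refine convexHull_min ?_ hS
        rintro _ ⟨i, rfl⟩
        have h1 : f (A i) ∈ C := by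
          rw [hf i]
          exact subset_convexHull ℝ _ ⟨i, rfl⟩
        refine ⟨h1, ?_⟩
        rw [← hWv i]
        congr 1
        exact Subtype.ext (hf i)
      obtain ⟨h1, h2⟩ := hsub2 ha
      change o c = ∑ l, a.1 l * W l
      rw [← h2]
      congr 1
      exact Subtype.ext hac.symm
  have hsec : ∀ c : C, ∃ a : T, a.1 ∈ Df ∧ f a.1 = c := by
    intro c
    have hc : (c : E) ∈ f '' Df := by
      rw [himg]
      exact c.2
    obtain ⟨a, ha, hac⟩ := hc
    exact ⟨⟨a, hsub ha⟩, ha, hac⟩
  choose sec hsec1 hsec2 using hsec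
  set Dg : Set (T → ℝ) := {e | e ∈ Omega T ∧ ∃ o ∈ Omega C, ∀ (a : T) (c : C),
    a.1 ∈ Df → f a.1 = c → o c = e a} with hDg
  have hgeq : ∀ (e : T → ℝ) (o : C → ℝ),
      (∀ (a : T) (c : C), a.1 ∈ Df → f a.1 = c → o c = e a) →
      (fun c => e (sec c)) = o := by
    intro e o h
    funext c
    exact (h (sec c) c (hsec1 c) (hsec2 c)).symm
  refine ⟨Df, Dg, fun e c => e (sec c), stdSimplex_isSimplex k,
    ⟨hsub, convex_convexHull ℝ _, himg, ?_⟩, ⟨fun e he => he.1, ?_, ?_, ?_⟩, ?_⟩
  · intro a _ b _ l _ _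
    simp
  · rintro x ⟨hx, ox, hox, hx2⟩ y ⟨hy, oy, hoy, hy2⟩ s t hs ht hst
    refine ⟨Omega_comb T x y hx hy s t hs ht hst, s • ox + t • oy,
      Omega_comb C ox oy hox hoy s t hs ht hst, ?_⟩
    intro a c ha hac
    simp only [Pi.add_apply, Pi.smul_apply, smul_eq_mul]
    rw [hx2 a c ha hac, hy2 a c ha hac]
  · apply Subset.antisymm
    · rintro _ ⟨e, ⟨_, o, ho, h⟩, rfl⟩
      change (fun c => e (sec c)) ∈ Omega C
      rw [hgeq e o h]
      exact ho
    · intro o ho
      obtain ⟨e, he, h⟩ := hlift2 o ho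
      exact ⟨e, ⟨he, o, ho, h⟩, hgeq e o h⟩
  · intro a _ b _ l _ _
    funext c
    simp
  · rintro a c ha hac e ⟨_, o, _, h⟩
    have h1 : (fun c => e (sec c)) c = o c := congrFun (hgeq e o h) c
    change e (sec c) = e a
    rw [← h a c ha hac]
    exact h1

end Pool.Agent.Lib.MP_902647_gt
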