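import Mathlib
import Pool.Agent.Lib.MP_902647_gt.LogFact
import Pool.Agent.Lib.MP_902647_gt.LogLift
import Pool.Agent.Lib.MP_902647_gt.Refine

set_option autoImplicit false

open Set

/-!
# Polygons with many vertices and a small simplicial refinement
-/

namespace Pool.Agent.Lib.MP_902647_gt

/-- Three-term convex combinations in `Omega`. -/
theorem Omega_three {E : Type*} [AddCommGroup E] [Module ℝ E] {C : Set E} (hC : Convex ℝ C)
    {o : C → ℝ} (ho : o ∈ Omega C) (x y z w : C) (l0 l1 l2 : ℝ) (h0 : 0 ≤ l0) (h1 : 0 < l1)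
    (h2 : 0 ≤ l2) (hs : l0 + l1 + l2 = 1)
    (hw : (w : E) = l0 • (x : E) + l1 • (y : E) + l2 • (z : E)) :
    o w = l0 * o x + l1 * o y + l2 * o z := by
  set t : ℝ := l1 + l2 with ht
  have htpos : 0 < t := by linarith
  have hl1 : l1 / t + l2 / t = 1 := by rw [← add_div, div_self htpos.ne']
  have hu : (l1 / t) • (y : E) + (l2 / t) • (z : E) ∈ C :=
    hC y.2 z.2 (by positivity) (by positivity) hl1
  set u : C := ⟨_, hu⟩ with hudef
  have e1 : o u = (l1 / t) * o y + (1 - l1 / t) * o z := by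
    apply ho.2 y z u (l1 / t) (by positivity)
    · rw [div_le_one htpos]; linarith
    · have : 1 - l1 / t = l2 / t := by linarith
      rw [this]
  have e2 : o w = l0 * o x + (1 - l0) * o u := by
    apply ho.2 x u w l0 h0 (by linarith)
    have : 1 - l0 = t := by linarith
    rw [this, hw, hudef]
    simp only [smul_add, smul_smul]
    rw [mul_div_cancel₀ _ htpos.ne', mul_div_cancel₀ _ htpos.ne', add_assoc]
  rw [e2, e1]
  have : 1 - l0 = t := by linarith
  rw [this]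
  field_simp
  ring

/-- the vertices -/
noncomputable def vtx (n : ℕ) (R H : ℝ) : Fin n ⊕ Bool → ℝ × ℝ
  | Sum.inl i => ((i : ℕ), ((i : ℕ) : ℝ) ^ 2)
  | Sum.inr false => (-R, H)
  | Sum.inr true => (R, H)

/-- the linear form `(x, y) ↦ a x + b y` -/
noncomputable def form (a b : ℝ) : (ℝ × ℝ) →ₗ[ℝ] ℝ :=
  a • LinearMap.fst ℝ ℝ ℝ + b • LinearMap.snd ℝ ℝ ℝ

theorem form_apply (a b : ℝ) (x : ℝ × ℝ) : form a b x = a * x.1 + b * x.2 := by
  simp [form]

theorem vtx_extreme (n : ℕ) (hn : 2 ≤ n) (R H : ℝ) (hR : n ≤ R) (hH : 4 * n * R ≤ H) :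
    (convexHull ℝ (range (vtx n R H))).extremePoints ℝ = range (vtx n R H) ∧
      ((convexHull ℝ (range (vtx n R H))).extremePoints ℝ).ncard = n + 2 := by
  have h := extremePoints_of_forms (vtx n R H) (fun i => match i with
    | Sum.inl i => form (2 * (i : ℕ)) (-1)
    | Sum.inr false => form (-1) 1
    | Sum.inr true => form 1 1) ?_
  · refine ⟨h.1, ?_⟩
    rw [h.2]
    simp
  · have hn' : (2 : ℝ) ≤ n := by exact_mod_cast hn
    have hb : ∀ i : Fin n, (0 : ℝ) ≤ (i : ℕ) ∧ ((i : ℕ) : ℝ) + 1 ≤ n := fun i =>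
      ⟨by positivity, by exact_mod_cast i.2⟩
    have hRpos : 0 < R := by linarith
    have hnR : 2 * R ≤ n * R := by nlinarith
    have hnn : (n : ℝ) * n ≤ n * R := by nlinarith
    rintro (i | i | i) (j | j | j) hij
    · simp only [form_apply, vtx]
      have hne : ((i : ℕ) : ℝ) ≠ (j : ℕ) := by
        intro h
        apply hij
        have : (i : ℕ) = j := by exact_mod_cast h
        rw [Fin.ext this]
      have := mul_self_pos.2 (sub_ne_zero.2 hne)
      nlinarith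
    · simp only [form_apply, vtx]
      have := hb i
      nlinarith
    · simp only [form_apply, vtx]
      have := hb i
      nlinarith
    · simp only [form_apply, vtx]
      have := hb j
      nlinarith
    · exact absurd rfl hij
    · simp only [form_apply, vtx]
      linarith
    · simp only [form_apply, vtx]
      have := hb j
      nlinarith
    · simp only [form_apply, vtx]
      linarith
    · exact absurd rfl hij

/-- A polygon with at least four extreme points is not a simplex. -/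
theorem not_isSimplex_of_four {C : Set (ℝ × ℝ)} (hC : 4 ≤ (C.extremePoints ℝ).ncard) :
    ¬ IsSimplex C := by
  rintro ⟨k, p, hp, hC'⟩
  have h0 : Module.finrank ℝ (vectorSpan ℝ (range p)) ≤ Module.finrank ℝ (ℝ × ℝ) :=
    Submodule.finrank_le _
  have h1 : Fintype.card (Fin (k + 1)) ≤ Module.finrank ℝ (ℝ × ℝ) + 1 :=
    hp.card_le_finrank_succ.trans (Nat.add_le_add_right h0 1)
  have h2 : (C.extremePoints ℝ).ncard ≤ k + 1 := by
    have h3 : C.extremePoints ℝ ⊆ range p := by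
      rw [hC']
      exact extremePoints_convexHull_subset
    have h4 := ncard_le_ncard h3 (finite_range p)
    have h5 : (range p).ncard ≤ k + 1 := by
      rw [← image_univ]
      refine (ncard_image_le (toFinite _)).trans ?_
      simp
    exact h4.trans h5
  simp at h1
  omega

/-- The values of an affine function at the vertices on the parabola. -/
theorem Omega_formula (n : ℕ) (hn : 2 ≤ n) (R H : ℝ) (hR : n ≤ R) (hH : 4 * n * R ≤ H)
    (C : Set (ℝ × ℝ)) (hconv : Convex ℝ C) (hmem : ∀ i, vtx n R H i ∈ C)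
    (o : C → ℝ) (ho : o ∈ Omega C) :
    ∃ b p s : ℝ, b - p * R + s * H = o ⟨vtx n R H (Sum.inr false), hmem _⟩ ∧
      b + p * R + s * H = o ⟨vtx n R H (Sum.inr true), hmem _⟩ ∧
      ∀ i : Fin n, b + p * (i : ℕ) + s * ((i : ℕ) : ℝ) ^ 2 =
        o ⟨vtx n R H (Sum.inl i), hmem _⟩ := by
  have hn' : (2 : ℝ) ≤ n := by exact_mod_cast hn
  have hRpos : 0 < R := by linarith
  have hHpos : 0 < H := by nlinarith
  obtain ⟨P0, hP0⟩ : ∃ P0 : C, P0 = ⟨vtx n R H (Sum.inl ⟨0, by omega⟩), hmem _⟩ := ⟨_, rfl⟩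
  obtain ⟨B1, hB1⟩ : ∃ B1 : C, B1 = ⟨vtx n R H (Sum.inr false), hmem _⟩ := ⟨_, rfl⟩
  obtain ⟨B2, hB2⟩ : ∃ B2 : C, B2 = ⟨vtx n R H (Sum.inr true), hmem _⟩ := ⟨_, rfl⟩
  have vP0 : (P0 : ℝ × ℝ) = (0, 0) := by rw [hP0]; simp [vtx]
  have vB1 : (B1 : ℝ × ℝ) = (-R, H) := by rw [hB1]; rfl
  have vB2 : (B2 : ℝ × ℝ) = (R, H) := by rw [hB2]; rfl
  rw [← hB1, ← hB2]
  have hmid : (1 / 2 : ℝ) • (B1 : ℝ × ℝ) + (1 / 2 : ℝ) • (B2 : ℝ × ℝ) ∈ C :=
    hconv B1.2 B2.2 (by norm_num) (by norm_num) (by norm_num)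
  obtain ⟨Q, hQ⟩ : ∃ Q : C, (Q : ℝ × ℝ) = (1 / 2 : ℝ) • (B1 : ℝ × ℝ) + (1 / 2 : ℝ) • (B2 : ℝ × ℝ) :=
    ⟨⟨_, hmid⟩, rfl⟩
  have hQv : (Q : ℝ × ℝ) = (0, H) := by
    rw [hQ, vB1, vB2]
    ext
    · simp
    · simp; ring
  have oQ : o Q = 1 / 2 * o B1 + (1 - 1 / 2) * o B2 := by
    apply ho.2 B1 B2 Q (1 / 2) (by norm_num) (by norm_num)
    rw [hQ]
    norm_num
  refine ⟨o P0, (o B2 - o B1) / (2 * R), ((o B1 + o B2) / 2 - o P0) / H, ?_, ?_, ?_⟩
  · field_simp; ring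
  · field_simp; ring
  · intro i
    obtain ⟨x, hx⟩ : ∃ x : ℝ, x = ((i : ℕ) : ℝ) := ⟨_, rfl⟩
    have hx0 : 0 ≤ x := by rw [hx]; positivity
    have hx1 : x + 1 ≤ n := by rw [hx]; exact_mod_cast i.2
    obtain ⟨Pi, hPi⟩ : ∃ Pi : C, Pi = ⟨vtx n R H (Sum.inl i), hmem _⟩ := ⟨_, rfl⟩
    have vPi : (Pi : ℝ × ℝ) = (x, x ^ 2) := by rw [hPi, hx]; rfl
    rw [← hPi, ← hx]
    have hMm : (1 / 2 : ℝ) • (Pi : ℝ × ℝ) + (1 / 2 : ℝ) • (Q : ℝ × ℝ) ∈ C :=
      hconv Pi.2 Q.2 (by norm_num) (by norm_num) (by norm_num)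
    obtain ⟨M, hM⟩ : ∃ M : C,
      (M : ℝ × ℝ) = (1 / 2 : ℝ) • (Pi : ℝ × ℝ) + (1 / 2 : ℝ) • (Q : ℝ × ℝ) := ⟨⟨_, hMm⟩, rfl⟩
    have hMv : (M : ℝ × ℝ) = (x / 2, (x ^ 2 + H) / 2) := by
      rw [hM, hQv, vPi]
      ext
      · simp; ring
      · simp; ring
    have oM : o M = 1 / 2 * o Pi + (1 - 1 / 2) * o Q := by
      apply ho.2 Pi Q M (1 / 2) (by norm_num) (by norm_num)
      rw [hM]
      norm_num
    have hxH : x ^ 2 ≤ H := by nlinarith
    have oM' : o M = (H - x ^ 2) / (2 * H) * o P0 + ((x ^ 2 + H) / (2 * H) + x / (2 * R)) / 2 * o B2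
        + ((x ^ 2 + H) / (2 * H) - x / (2 * R)) / 2 * o B1 := by
      have hpos2 : 1 / 2 ≤ (x ^ 2 + H) / (2 * H) := by
        rw [div_le_div_iff₀ (by norm_num) (by positivity)]
        nlinarith [sq_nonneg x]
      have hpos3 : x / (2 * R) ≤ 1 / 2 := by
        rw [div_le_div_iff₀ (by positivity) (by norm_num)]
        nlinarith
      have hpos4 : 0 ≤ x / (2 * R) := by positivity
      refine Omega_three hconv ho P0 B2 B1 M _ _ _ ?_ ?_ ?_ ?_ ?_
      · apply div_nonneg <;> linarith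
      · linarith
      · linarith
      · field_simp; ring
      · rw [hMv, vP0, vB1, vB2]
        ext
        · simp; field_simp; ring
        · simp; field_simp; ring
    have : o Pi = 2 * o M - o Q := by rw [oM]; ring
    rw [this, oM', oQ]
    field_simp
    ring

theorem exists_polygon_aux (n L : ℕ) (hn : 2 ≤ n) (hLn : 2 ≤ L) (hfact : IsFact n L) :
    ∃ (C : Set (ℝ × ℝ)) (Df : Set (Fin (L + 3) → ℝ))
      (f : (Fin (L + 3) → ℝ) →ₗ[ℝ] ℝ × ℝ)
      (Dg : Set (stdSimplex ℝ (Fin (L + 3)) → ℝ))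
      (g : (stdSimplex ℝ (Fin (L + 3)) → ℝ) → (C → ℝ)),
      IsPolytope C ∧ (C.extremePoints ℝ).ncard = n + 2 ∧
      IsSimplicialRefinement C (stdSimplex ℝ (Fin (L + 3))) Df f Dg g := by
  obtain ⟨a, ha, hv, hu, hu'⟩ := hfact
  have hn' : (2 : ℝ) ≤ n := by exact_mod_cast hn
  have hL2 : (2 : ℝ) ≤ (L : ℝ) := by exact_mod_cast hLn
  set S : ℝ := (L : ℝ) * n with hS
  have hSn : (n : ℝ) ≤ S := by rw [hS]; nlinarith
  have hS1 : 1 ≤ S := by linarith
  have hSpos : 0 < S := by linarith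
  set H : ℝ := 4 * n * S with hH
  have hHpos : 0 < H := by positivity
  have hext := vtx_extreme n hn S H hSn le_rfl
  have hsumle : ∀ i < n, ∑ l, a i l ≤ S := by
    intro i hi
    calc ∑ l, a i l ≤ ∑ _l : Fin L, (n : ℝ) := Finset.sum_le_sum fun l _ => (ha i hi l).2
      _ = S := by simp [hS]
  obtain ⟨v0, hv0, hv0'⟩ := hv 0 (by norm_num) (by exact_mod_cast (by omega : 0 < n))
  obtain ⟨u, hu1, hu2⟩ := hu
  -- the lifts of the vertices
  set A : Fin n ⊕ Bool → (Fin (L + 2 + 1) → ℝ) := fun i => match i with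
    | Sum.inl i => Fin.cons (1 - (∑ l, a i l) / S) (Fin.cons 0 (Fin.cons 0 (fun l => a i l / S)))
    | Sum.inr false => Fin.cons 0 (Fin.cons 1 (Fin.cons 0 (fun _ => 0)))
    | Sum.inr true => Fin.cons 0 (Fin.cons 0 (Fin.cons 1 (fun _ => 0))) with hA
  set f : (Fin (L + 2 + 1) → ℝ) →ₗ[ℝ] ℝ × ℝ :=
    LinearMap.prod
      (∑ l : Fin L, (u l * S) • LinearMap.proj (Fin.succ (Fin.succ (Fin.succ l))) +
        (-S) • LinearMap.proj (Fin.succ 0) + S • LinearMap.proj (Fin.succ (Fin.succ 0)))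
      (∑ l : Fin L, ((v0 l + u l) * S) • LinearMap.proj (Fin.succ (Fin.succ (Fin.succ l))) +
        H • LinearMap.proj (Fin.succ 0) + H • LinearMap.proj (Fin.succ (Fin.succ 0))) with hf
  have hfapp : ∀ x : Fin (L + 2 + 1) → ℝ, f x =
      (∑ l : Fin L, (u l * S) * x (Fin.succ (Fin.succ (Fin.succ l))) +
        (-S) * x (Fin.succ 0) + S * x (Fin.succ (Fin.succ 0)),
       ∑ l : Fin L, ((v0 l + u l) * S) * x (Fin.succ (Fin.succ (Fin.succ l))) +
        H * x (Fin.succ 0) + H * x (Fin.succ (Fin.succ 0))) := by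
    intro x
    rw [hf]
    simp [LinearMap.prod_apply]
  have hAmem : ∀ i, A i ∈ stdSimplex ℝ (Fin (L + 2 + 1)) := by
    rintro (i | i | i)
    · refine ⟨?_, ?_⟩
      · intro j
        refine Fin.cases ?_ (fun j => Fin.cases ?_ (fun j => Fin.cases ?_ (fun j => ?_) j) j) j
        · show 0 ≤ 1 - (∑ l, a i l) / S
          have := hsumle i i.2
          rw [sub_nonneg, div_le_one hSpos]; exact this
        · exact le_rfl
        · exact le_rfl
        · exact div_nonneg (ha i i.2 j).1 hSpos.le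
      · rw [Fin.sum_univ_succ, Fin.sum_univ_succ, Fin.sum_univ_succ]
        show 1 - (∑ l, a i l) / S + (0 + (0 + ∑ l, a i l / S)) = 1
        rw [← Finset.sum_div]; ring
    · refine ⟨?_, ?_⟩
      · intro j
        refine Fin.cases ?_ (fun j => Fin.cases ?_ (fun j => Fin.cases ?_ (fun j => ?_) j) j) j
        · exact le_rfl
        · exact zero_le_one
        · exact le_rfl
        · exact le_rfl
      · rw [Fin.sum_univ_succ, Fin.sum_univ_succ, Fin.sum_univ_succ]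
        show (0 : ℝ) + (1 + (0 + ∑ _l : Fin L, (0 : ℝ))) = 1
        simp
    · refine ⟨?_, ?_⟩
      · intro j
        refine Fin.cases ?_ (fun j => Fin.cases ?_ (fun j => Fin.cases ?_ (fun j => ?_) j) j) j
        · exact le_rfl
        · exact le_rfl
        · exact zero_le_one
        · exact le_rfl
      · rw [Fin.sum_univ_succ, Fin.sum_univ_succ, Fin.sum_univ_succ]
        show (0 : ℝ) + (0 + (1 + ∑ _l : Fin L, (0 : ℝ))) = 1
        simp
  have hfA : ∀ i, f (A i) = vtx n S H i := by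
    rintro (i | i | i)
    · rw [hfapp]
      show (∑ l : Fin L, (u l * S) * (a i l / S) + (-S) * 0 + S * 0,
        ∑ l : Fin L, ((v0 l + u l) * S) * (a i l / S) + H * 0 + H * 0) =
        (((i : ℕ) : ℝ), ((i : ℕ) : ℝ) ^ 2)
      have e1 : ∑ l : Fin L, (u l * S) * (a i l / S) = ((i : ℕ) : ℝ) := by
        rw [hu2 i i.2]
        exact Finset.sum_congr rfl fun l _ => by field_simp
      have e2 : ∑ l : Fin L, ((v0 l + u l) * S) * (a i l / S) = ((i : ℕ) : ℝ) ^ 2 := by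
        have e3 := hv0' i i.2
        have e4 := hu2 i i.2
        have e5 : ∑ l : Fin L, ((v0 l + u l) * S) * (a i l / S)
            = ∑ l, v0 l * a i l + ∑ l, u l * a i l := by
          rw [← Finset.sum_add_distrib]
          exact Finset.sum_congr rfl fun l _ => by field_simp
        rw [e5, ← e3, ← e4]
        push_cast
        ring
      rw [e1, e2]
      ext <;> simp
    · rw [hfapp]
      show (∑ l : Fin L, (u l * S) * 0 + (-S) * 1 + S * 0,
        ∑ l : Fin L, ((v0 l + u l) * S) * 0 + H * 1 + H * 0) = (-S, H)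
      ext <;> simp
    · rw [hfapp]
      show (∑ l : Fin L, (u l * S) * 0 + (-S) * 0 + S * 1,
        ∑ l : Fin L, ((v0 l + u l) * S) * 0 + H * 0 + H * 1) = (S, H)
      ext <;> simp
  have hlift : ∀ o ∈ Omega (convexHull ℝ (range (vtx n S H))), ∃ W : Fin (L + 2 + 1) → ℝ,
      (∀ l, 0 ≤ W l ∧ W l ≤ 1) ∧
      ∀ i, o ⟨vtx n S H i, subset_convexHull ℝ _ ⟨i, rfl⟩⟩ = ∑ l, A i l * W l := by
    intro o ho
    obtain ⟨b, p, s, e1, e2, e3⟩ := Omega_formula n hn S H hSn le_rfl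
      (convexHull ℝ (range (vtx n S H))) (convex_convexHull ℝ _)
      (fun i => subset_convexHull ℝ _ (mem_range_self i)) o ho
    have hb : ∀ i < n, 0 ≤ b + p * (i : ℕ) + s * (i : ℝ) ^ 2 ∧
        b + p * (i : ℕ) + s * (i : ℝ) ^ 2 ≤ 1 := by
      intro i hi
      rw [e3 ⟨i, hi⟩]
      exact ho.1 _
    obtain ⟨α, W, hα0, hα1, hW, hWv⟩ := exists_W n L hn a hv ⟨u, hu1, hu2⟩ hu' S S H hS1 le_rfl
      (by rw [hH]; nlinarith) b p s _ _ e1 e2 hb (ho.1 _) (ho.1 _)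
    obtain ⟨o1, ho1⟩ : ∃ o1, o ⟨vtx n S H (Sum.inr false), subset_convexHull ℝ _ ⟨_, rfl⟩⟩ = o1 :=
      ⟨_, rfl⟩
    obtain ⟨o2, ho2⟩ : ∃ o2, o ⟨vtx n S H (Sum.inr true), subset_convexHull ℝ _ ⟨_, rfl⟩⟩ = o2 :=
      ⟨_, rfl⟩
    have hm1 : 0 ≤ o1 ∧ o1 ≤ 1 := by rw [← ho1]; exact ho.1 _
    have hm2 : 0 ≤ o2 ∧ o2 ≤ 1 := by rw [← ho2]; exact ho.1 _
    refine ⟨Fin.cons α (Fin.cons o1 (Fin.cons o2 W)), ?_, ?_⟩
    · intro j
      refine Fin.cases ?_ (fun j => Fin.cases ?_ (fun j => Fin.cases ?_ (fun j => ?_) j) j) j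
      · exact ⟨hα0, hα1⟩
      · exact hm1
      · exact hm2
      · exact hW j
    · rintro (i | i | i)
      · rw [← e3 i, hWv i i.2, Fin.sum_univ_succ, Fin.sum_univ_succ, Fin.sum_univ_succ]
        show _ = (1 - (∑ l, a i l) / S) * α + (0 * o1 + (0 * o2 + ∑ l, a i l / S * W l))
        ring
      · rw [Fin.sum_univ_succ, Fin.sum_univ_succ, Fin.sum_univ_succ, ho1]
        show o1 = (0 : ℝ) * α + (1 * o1 + (0 * o2 + ∑ l, 0 * W l))
        simp
      · rw [Fin.sum_univ_succ, Fin.sum_univ_succ, Fin.sum_univ_succ, ho2]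
        show o2 = (0 : ℝ) * α + (0 * o1 + (1 * o2 + ∑ l, 0 * W l))
        simp
  obtain ⟨Df, Dg, g, hg⟩ := exists_refinement (vtx n S H) (L + 2) A hAmem f hfA hlift
  refine ⟨convexHull ℝ (range (vtx n S H)), Df, f, Dg, g, ⟨?_, ?_, convex_convexHull ℝ _, ?_⟩,
    hext.2, hg⟩
  · exact (range_nonempty _).convexHull
  · exact (finite_range _).isCompact_convexHull ℝ
  · rw [hext.1]; exact finite_range _

theorem exists_polygon (n : ℕ) (hn : 2 ≤ n) :
    ∃ (C : Set (ℝ × ℝ)) (Df : Set (Fin (2 * Nat.clog 2 n + 3) → ℝ))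
      (f : (Fin (2 * Nat.clog 2 n + 3) → ℝ) →ₗ[ℝ] ℝ × ℝ)
      (Dg : Set (stdSimplex ℝ (Fin (2 * Nat.clog 2 n + 3)) → ℝ))
      (g : (stdSimplex ℝ (Fin (2 * Nat.clog 2 n + 3)) → ℝ) → (C → ℝ)),
      IsPolytope C ∧ (C.extremePoints ℝ).ncard = n + 2 ∧
      IsSimplicialRefinement C (stdSimplex ℝ (Fin (2 * Nat.clog 2 n + 3))) Df f Dg g := by
  have h1 : 1 ≤ Nat.clog 2 n := Nat.clog_pos (by norm_num) hn
  exact exists_polygon_aux n (2 * Nat.clog 2 n) hn (by omega) (isFact_clog n (by omega))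

end Pool.Agent.Lib.MP_902647_gt
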