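import Mathlib
import Pool.Agent.Lib.MP_902647_gt.Refine

set_option autoImplicit false

open Set

/-!
# A lower bound for the number of vertices of a simplicial refinement
-/

namespace Pool.Agent.Lib.MP_902647_gt

theorem convex_lt_or_eq {E : Type*} [AddCommGroup E] [Module ℝ E] (v : E) (l : E →ₗ[ℝ] ℝ) :
    Convex ℝ {x : E | l x < l v ∨ x = v} := by
  intro x hx y hy a b ha hb hab
  rcases hx with hx | hx <;> rcases hy with hy | hy
  · left
    rcases eq_or_lt_of_le ha with ha0 | ha0
    · have hb1 : b = 1 := by linarith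
      subst hb1
      rw [← ha0]
      simpa using hy
    · have h1 : a * l x < a * l v := mul_lt_mul_of_pos_left hx ha0
      have h2 : b * l y ≤ b * l v := mul_le_mul_of_nonneg_left hy.le hb
      have h3 : l (a • x + b • y) = a * l x + b * l y := by simp
      rw [h3]
      have h4 : l v = a * l v + b * l v := by rw [← add_mul, hab, one_mul]
      linarith
  · rcases eq_or_lt_of_le ha with ha0 | ha0
    · right
      have hb1 : b = 1 := by linarith
      subst hb1
      rw [← ha0, hy]
      simp
    · left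
      have h1 : a * l x < a * l v := mul_lt_mul_of_pos_left hx ha0
      have h3 : l (a • x + b • y) = a * l x + b * l y := by simp
      rw [h3, hy]
      have h4 : l v = a * l v + b * l v := by rw [← add_mul, hab, one_mul]
      linarith
  · rcases eq_or_lt_of_le hb with hb0 | hb0
    · right
      have ha1 : a = 1 := by linarith
      subst ha1
      rw [← hb0, hx]
      simp
    · left
      have h1 : b * l y < b * l v := mul_lt_mul_of_pos_left hy hb0
      have h3 : l (a • x + b • y) = a * l x + b * l y := by simp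
      rw [h3, hx]
      have h4 : l v = a * l v + b * l v := by rw [← add_mul, hab, one_mul]
      linarith
  · right
    rw [hx, hy, ← add_smul, hab, one_smul]

/-- An extreme point of a polytope is separated from any other point by a member of `Omega`. -/
theorem exists_separating {E : Type*} [NormedAddCommGroup E] [NormedSpace ℝ E] {C : Set E}
    (hC : IsPolytope C) (w : C) (hw : (w : E) ∈ C.extremePoints ℝ) (v : C) (hv : v ≠ w) :
    ∃ o ∈ Omega C, o w = 0 ∧ 0 < o v := by
  obtain ⟨hne, hcomp, hconv, hfin⟩ := hC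
  have hcl : C = convexHull ℝ (C.extremePoints ℝ) := by
    have h1 := closure_convexHull_extremePoints hcomp hconv
    rw [(hfin.isCompact_convexHull ℝ).isClosed.closure_eq] at h1
    exact h1.symm
  have hind := convexIndependent_set_iff_notMem_convexHull_sdiff.1
    hconv.convexIndependent_extremePoints (w : E) hw
  have hfin' : (C.extremePoints ℝ \ {(w : E)}).Finite := hfin.subset sdiff_subset
  obtain ⟨l, u, h1, h2⟩ := geometric_hahn_banach_closed_point (convex_convexHull ℝ _)
    (hfin'.isCompact_convexHull ℝ).isClosed hind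
  have hsub : C ⊆ {x : E | l x < l w ∨ x = w} := by
    intro x hx
    rw [hcl] at hx
    refine convexHull_min ?_ (convex_lt_or_eq (w : E) (l : E →ₗ[ℝ] ℝ)) hx
    intro e he
    by_cases hew : e = w
    · exact Or.inr hew
    · exact Or.inl ((h1 e (subset_convexHull ℝ _ ⟨he, hew⟩)).trans h2)
  obtain ⟨m, hm⟩ := hcomp.bddBelow_image l.continuous.continuousOn
  have hm' : ∀ x ∈ C, m ≤ l x := fun x hx => hm (mem_image_of_mem _ hx)
  have hle : ∀ x ∈ C, l x ≤ l w := by
    intro x hx
    rcases hsub hx with h | h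
    · exact h.le
    · rw [h]
  have hM : 0 < l w - m + 1 := by have := hm' w w.2; linarith
  refine ⟨fun x => (l w - l x) / (l w - m + 1), ⟨fun x => ⟨?_, ?_⟩, ?_⟩, ?_, ?_⟩
  · exact div_nonneg (by have := hle x x.2; linarith) hM.le
  · rw [div_le_one hM]
    have := hm' x x.2
    linarith
  · intro a b c t _ _ hc
    show (l w - l c) / _ = t * ((l w - l a) / _) + (1 - t) * ((l w - l b) / _)
    rw [hc, map_add, map_smul, map_smul, smul_eq_mul, smul_eq_mul]
    field_simp
    ring
  · simp
  · apply div_pos _ hM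
    rcases hsub v.2 with h | h
    · exact sub_pos.2 h
    · exact absurd (Subtype.ext h) hv

/-- the map from the standard simplex onto a simplex -/
def bary {F : Type*} [AddCommGroup F] [Module ℝ F] {k : ℕ} (p : Fin (k + 1) → F) :
    (Fin (k + 1) → ℝ) →ₗ[ℝ] F :=
  ∑ i, (LinearMap.proj i : (Fin (k + 1) → ℝ) →ₗ[ℝ] ℝ).smulRight (p i)

theorem bary_apply {F : Type*} [AddCommGroup F] [Module ℝ F] {k : ℕ} (p : Fin (k + 1) → F)
    (w : Fin (k + 1) → ℝ) : bary p w = ∑ i, w i • p i := by
  simp [bary]

theorem bary_single {F : Type*} [AddCommGroup F] [Module ℝ F] {k : ℕ} (p : Fin (k + 1) → F)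
    (i : Fin (k + 1)) : bary p (Pi.single i 1) = p i := by
  rw [bary_apply, Finset.sum_eq_single i]
  · simp
  · intro j _ hj; simp [hj]
  · intro h; exact absurd (Finset.mem_univ i) h

theorem bary_image {F : Type*} [AddCommGroup F] [Module ℝ F] {k : ℕ} (p : Fin (k + 1) → F) :
    bary p '' stdSimplex ℝ (Fin (k + 1)) = convexHull ℝ (range p) := by
  rw [← convexHull_rangle_single_eq_stdSimplex (R := ℝ) (ι := Fin (k + 1)),
    (bary p).isLinear.image_convexHull]
  congr 1
  ext x
  constructor
  · rintro ⟨_, ⟨i, rfl⟩, rfl⟩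
    exact ⟨i, (bary_single p i).symm⟩
  · rintro ⟨i, rfl⟩
    exact ⟨_, ⟨i, rfl⟩, bary_single p i⟩

theorem bary_inj {F : Type*} [AddCommGroup F] [Module ℝ F] {k : ℕ} {p : Fin (k + 1) → F}
    (hp : AffineIndependent ℝ p) {w1 w2 : Fin (k + 1) → ℝ} (h1 : ∑ i, w1 i = 1)
    (h2 : ∑ i, w2 i = 1) (h : bary p w1 = bary p w2) : w1 = w2 := by
  rw [affineIndependent_iff_eq_of_fintype_affineCombination_eq] at hp
  apply hp w1 w2 h1 h2
  rw [Finset.affineCombination_eq_linear_combination _ _ _ h1,
    Finset.affineCombination_eq_linear_combination _ _ _ h2, ← bary_apply, ← bary_apply, h]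

/-- The vertices of a simplex are its extreme points. -/
theorem simplex_ncard {F : Type*} [AddCommGroup F] [Module ℝ F] {k : ℕ} {p : Fin (k + 1) → F}
    (hp : AffineIndependent ℝ p) :
    ((convexHull ℝ (range p)).extremePoints ℝ).ncard = k + 1 := by
  have h1 : (convexHull ℝ (range p)).extremePoints ℝ = range p := by
    apply Subset.antisymm extremePoints_convexHull_subset
    rintro _ ⟨j, rfl⟩
    rw [mem_extremePoints]
    refine ⟨subset_convexHull ℝ _ ⟨j, rfl⟩, ?_⟩
    have key : ∀ x ∈ convexHull ℝ (range p), ∀ y ∈ convexHull ℝ (range p),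
        p j ∈ openSegment ℝ x y → x = p j := by
      rintro x hx y hy ⟨a, b, ha, hb, hab, hxy⟩
      rw [← bary_image] at hx hy
      obtain ⟨wx, ⟨hx1, hx2⟩, rfl⟩ := hx
      obtain ⟨wy, ⟨hy1, hy2⟩, rfl⟩ := hy
      have e1 : a • wx + b • wy = Pi.single j 1 := by
        apply bary_inj hp
        · simp only [Pi.add_apply, Pi.smul_apply, smul_eq_mul]
          rw [Finset.sum_add_distrib, ← Finset.mul_sum, ← Finset.mul_sum, hx2, hy2, mul_one,
            mul_one, hab]
        · simp
        · rw [map_add, map_smul, map_smul, hxy, bary_single]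
      have e2 : ∀ i, i ≠ j → wx i = 0 := by
        intro i hi
        have e3 := congrFun e1 i
        simp only [Pi.add_apply, Pi.smul_apply, smul_eq_mul, Pi.single_eq_of_ne hi] at e3
        have e4 := mul_nonneg ha.le (hx1 i)
        have e5 := mul_nonneg hb.le (hy1 i)
        have e6 : a * wx i = 0 := by linarith
        exact (mul_eq_zero.1 e6).resolve_left ha.ne'
      have e3 : wx = Pi.single j 1 := by
        have e4 : wx j = 1 := by
          rw [← hx2, Finset.sum_eq_single j (fun i _ hi => e2 i hi)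
            (fun h => absurd (Finset.mem_univ j) h)]
        funext i
        by_cases hi : i = j
        · rw [hi, e4, Pi.single_eq_same]
        · rw [e2 i hi, Pi.single_eq_of_ne hi]
      rw [e3, bary_single]
    intro x hx y hy hxy
    exact ⟨key x hx y hy hxy, key y hy x hx (by rw [openSegment_symm]; exact hxy)⟩
  rw [h1, ← image_univ, ncard_image_of_injective _ hp.injective, ncard_univ,
    Nat.card_eq_fintype_card, Fintype.card_fin]

/-- The values of a member of `Omega` of a simplex. -/
theorem Omega_simplex {F : Type*} [AddCommGroup F] [Module ℝ F] {k : ℕ} (p : Fin (k + 1) → F)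
    (e : convexHull ℝ (range p) → ℝ) (he : e ∈ Omega (convexHull ℝ (range p)))
    (w : Fin (k + 1) → ℝ) (hw : w ∈ stdSimplex ℝ (Fin (k + 1)))
    (hm : bary p w ∈ convexHull ℝ (range p)) :
    e ⟨bary p w, hm⟩ = ∑ i, w i * e ⟨p i, subset_convexHull ℝ _ (mem_range_self i)⟩ := by
  have hS : Convex ℝ {w : Fin (k + 1) → ℝ | ∃ h : bary p w ∈ convexHull ℝ (range p),
      e ⟨bary p w, h⟩ = ∑ i, w i * e ⟨p i, subset_convexHull ℝ _ (mem_range_self i)⟩} := by
    rintro x ⟨hx1, hx2⟩ y ⟨hy1, hy2⟩ s t hs ht hst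
    have h1 : bary p (s • x + t • y) = s • bary p x + t • bary p y := by simp
    have h2 : bary p (s • x + t • y) ∈ convexHull ℝ (range p) := by
      rw [h1]
      exact convex_convexHull ℝ _ hx1 hy1 hs ht hst
    refine ⟨h2, ?_⟩
    have ht' : t = 1 - s := by linarith
    have h3 := he.2 ⟨bary p x, hx1⟩ ⟨bary p y, hy1⟩ ⟨bary p (s • x + t • y), h2⟩ s hs (by linarith)
      (by
        change bary p (s • x + t • y) = s • bary p x + (1 - s) • bary p y
        rw [h1, ← ht'])
    rw [h3, hx2, hy2, ← ht']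
    simp only [Pi.add_apply, Pi.smul_apply, smul_eq_mul]
    rw [Finset.mul_sum, Finset.mul_sum, ← Finset.sum_add_distrib]
    refine Finset.sum_congr rfl fun k _ => ?_
    ring
  have hsub : stdSimplex ℝ (Fin (k + 1)) ⊆ {w : Fin (k + 1) → ℝ |
      ∃ h : bary p w ∈ convexHull ℝ (range p),
      e ⟨bary p w, h⟩ = ∑ i, w i * e ⟨p i, subset_convexHull ℝ _ (mem_range_self i)⟩} := by
    rw [← convexHull_rangle_single_eq_stdSimplex (R := ℝ) (ι := Fin (k + 1))]
    refine convexHull_min ?_ hS
    rintro _ ⟨i, rfl⟩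
    refine ⟨by rw [bary_single]; exact subset_convexHull ℝ _ (mem_range_self i), ?_⟩
    show e ⟨bary p (Pi.single i 1), _⟩ = ∑ j, (Pi.single i (1 : ℝ) : Fin (k + 1) → ℝ) j *
      e ⟨p j, subset_convexHull ℝ _ (mem_range_self j)⟩
    rw [Finset.sum_eq_single i]
    · rw [Pi.single_eq_same, one_mul]
      congr 1
      exact Subtype.ext (bary_single p i)
    · intro j _ hj
      rw [Pi.single_eq_of_ne hj, zero_mul]
    · intro h; exact absurd (Finset.mem_univ i) h
  obtain ⟨_, h⟩ := hsub hw
  exact h

/-- The number `m` of extreme points of a polytope is at most the middle binomial coefficient of the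
number of vertices of any simplicial refinement. -/
theorem lower_bound {E F : Type*} [NormedAddCommGroup E] [NormedSpace ℝ E] [AddCommGroup F]
    [Module ℝ F] {C : Set E} (hC : IsPolytope C) {T : Set F} {Df : Set F} {f : F → E}
    {Dg : Set (T → ℝ)} {g : (T → ℝ) → (C → ℝ)} (h : IsSimplicialRefinement C T Df f Dg g) :
    (C.extremePoints ℝ).ncard ≤
      ((T.extremePoints ℝ).ncard).choose ((T.extremePoints ℝ).ncard / 2) := by
  classical
  obtain ⟨⟨k, p, hp, hT⟩, hf, hg, hpair⟩ := h
  subst hT
  rw [simplex_ncard hp]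
  have hsec : ∀ v : C, ∃ w : Fin (k + 1) → ℝ, w ∈ stdSimplex ℝ (Fin (k + 1)) ∧
      bary p w ∈ Df ∧ f (bary p w) = v := by
    intro v
    have hv : (v : E) ∈ f '' Df := by rw [hf.onto]; exact v.2
    obtain ⟨a, ha, hav⟩ := hv
    have ha2 := hf.subset ha
    rw [← bary_image] at ha2
    obtain ⟨w, hw, rfl⟩ := ha2
    exact ⟨w, hw, ha, hav⟩
  choose wt hw1 hw2 hw3 using hsec
  set supp : C → Finset (Fin (k + 1)) := fun v => Finset.univ.filter (fun i => wt v i ≠ 0)
    with hsupp
  have key : ∀ v w : C, (w : E) ∈ C.extremePoints ℝ → v ≠ w → ¬ supp v ⊆ supp w := by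
    intro v w hw hvw hsub
    obtain ⟨o, ho, how, hov⟩ := exists_separating hC w hw v hvw
    obtain ⟨e, he, heo⟩ : o ∈ g '' Dg := by rw [hg.onto]; exact ho
    have he' := hg.subset he
    have h1 : ∀ u : C, o u = ∑ i, wt u i *
        e ⟨p i, subset_convexHull ℝ _ (mem_range_self i)⟩ := by
      intro u
      have hm := hf.subset (hw2 u)
      have h2 := hpair ⟨bary p (wt u), hm⟩ u (hw2 u) (hw3 u) e he
      rw [heo] at h2
      rw [h2]
      exact Omega_simplex p e he' (wt u) (hw1 u) hm
    have h2 : ∀ i, wt w i * e ⟨p i, subset_convexHull ℝ _ (mem_range_self i)⟩ = 0 := by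
      have h3 := h1 w
      rw [how] at h3
      have h4 := (Finset.sum_eq_zero_iff_of_nonneg (fun i _ =>
        mul_nonneg ((hw1 w).1 i) (he'.1 _).1)).1 h3.symm
      exact fun i => h4 i (Finset.mem_univ i)
    have h3 : o v = 0 := by
      rw [h1 v]
      refine Finset.sum_eq_zero fun i _ => ?_
      by_cases hi : wt v i = 0
      · rw [hi, zero_mul]
      · have h4 : i ∈ supp w := hsub (Finset.mem_filter.2 ⟨Finset.mem_univ i, hi⟩)
        have h5 : wt w i ≠ 0 := (Finset.mem_filter.1 h4).2
        rw [(mul_eq_zero.1 (h2 i)).resolve_left h5, mul_zero]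
    linarith
  have hfin := hC.2.2.2
  have hsubC : C.extremePoints ℝ ⊆ C := extremePoints_subset
  set sp : E → Finset (Fin (k + 1)) := fun x => if h : x ∈ C then supp ⟨x, h⟩ else ∅ with hsp0
  have hspv : ∀ x (hx : x ∈ C), sp x = supp ⟨x, hx⟩ := fun x hx => by rw [hsp0]; exact dif_pos hx
  set A : Finset (Finset (Fin (k + 1))) := hfin.toFinset.image sp with hA
  have hkey : ∀ x ∈ C.extremePoints ℝ, ∀ y ∈ C.extremePoints ℝ, x ≠ y → ¬ sp x ⊆ sp y := by
    intro x hx y hy hxy
    rw [hspv x (hsubC hx), hspv y (hsubC hy)]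
    exact key ⟨x, hsubC hx⟩ ⟨y, hsubC hy⟩ hy (fun h => hxy (congrArg Subtype.val h))
  have hanti : IsAntichain (· ⊆ ·) (A : Set (Finset (Fin (k + 1)))) := by
    intro s hs t ht hst hsub
    rw [hA, Finset.mem_coe, Finset.mem_image] at hs ht
    obtain ⟨x, hx, rfl⟩ := hs
    obtain ⟨y, hy, rfl⟩ := ht
    refine hkey x (hfin.mem_toFinset.1 hx) y (hfin.mem_toFinset.1 hy) ?_ hsub
    intro hxy
    apply hst
    rw [hxy]
  have hcard : A.card = (C.extremePoints ℝ).ncard := by
    rw [hA, Finset.card_image_of_injOn, ncard_eq_toFinset_card _ hfin]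
    intro x hx y hy hxy
    by_contra hne
    have hxy' : sp x = sp y := hxy
    exact hkey x (hfin.mem_toFinset.1 hx) y (hfin.mem_toFinset.1 hy) hne hxy'.le
  have hsp := hanti.sperner
  rw [hcard, Fintype.card_fin] at hsp
  exact hsp

end Pool.Agent.Lib.MP_902647_gt
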